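import Pool.Agent.Helper59.FD.Ext
import Pool.Agent.Helper87.BK.LCS
import Pool.Agent.Helper87.BKF.Basic

/-!
# Block FD: the data `FData` of a group with the data `UData` and injective comparison maps
-/

open scoped Topology

namespace Pool.Agent.Helper59.FD
open Pool.Agent.Helper11.BC (dl)
open Pool.Agent.Helper87.BCR
open Pool.Agent.Helper87.BK
open Pool.Agent.Helper87.BKF

variable {G : Type} [Group G] [TopologicalSpace G]

private theorem U_zero (E : UData G) (l : List G) : E.U (fun _ => 0) l = 0 := by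
  have h := E.U_lin 0 (fun _ => 0) (fun _ => 0) 0 0 (Uo_zero 0) (Uo_zero 0) l
  simp only [zero_mul, add_zero] at h
  exact h

private theorem K_zero (E : UData G) (l : List G) : E.K (fun _ => 0) l = 0 := by
  have h := E.K_lin 0 (fun _ => 0) (fun _ => 0) 0 0 (Uo_zero 0) (Uo_zero 0) l
  simp only [zero_mul, add_zero] at h
  exact h

/-- the operator `U` in one degree -/
theorem exists_udeg (E : UData G) {j : ℕ} (hj : 2 ≤ j) :
    ∃ (C : ℝ) (D : Set (Fin (j + 1) → G)), UDeg G j E.U C D := by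
  obtain ⟨C, D, hD, hb⟩ := E.U_bd (j + 1) (by omega)
  refine ⟨|C|, D, ⟨hD, abs_nonneg C, ?_, ?_, ?_, ?_⟩⟩
  · intro φ ψ a b hφ hψ l
    exact E.U_lin (j + 1) φ ψ a b hφ.1 hψ.1 l
  · intro φ hφ
    refine ⟨E.U_Uo (j + 1) φ hφ.1, fun l => ?_⟩
    rw [← E.U_dl j φ hφ.1 l, show dl φ = fun _ => 0 from funext hφ.2]
    exact U_zero E l
  · intro φ M hM hφ h l
    exact (hb φ M hM hφ.1 h l).trans (mul_le_mul_of_nonneg_right (le_abs_self C) hM)
  · intro φ hφ
    refine ⟨E.K φ, E.K_Uo j φ hφ.1, fun l => ?_⟩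
    by_cases hl : l = []
    · subst hl
      rw [(E.U_Uo (j + 1) φ hφ.1).supp [] (by simp), hφ.1.supp [] (by simp)]
      simp [dl]
    · have h := E.homo j φ hφ.1 l hl
      rw [show dl φ = fun _ => 0 from funext hφ.2, K_zero] at h
      linarith

/-- **FD**: the bounded cohomology is finite dimensional in every degree and detected on compact
sets -/
theorem exists_fdata [IsTopologicalGroup G] [LocallyCompactSpace G] [FirstCountableTopology G]
    [T2Space G] (E : UData G) (hI : ∀ n, 1 ≤ n → CInj G n)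
    (hom0 : ∀ φ : List G → ℝ, Uo 2 φ → (∀ m, dl φ m = 0) → ∀ m, φ m = 0) : Nonempty (FData G) := by
  obtain ⟨T, hT⟩ := exists_smt G
  have key : ∀ j : ℕ, ∃ (n : ℕ) (e : Fin n → List G → ℝ) (lam : Fin n → (List G → ℝ) → ℝ) (K : ℝ)
      (D : Set (Fin (j + 1) → G)), IsCompact D ∧
      (∀ i, Cy (j + 1) (e i)) ∧
      (∀ i (φ ψ : List G → ℝ) (a b : ℝ), Uo (j + 1) φ → Uo (j + 1) ψ →
        lam i (fun m => a * φ m + b * ψ m) = a * lam i φ + b * lam i ψ) ∧
      (∀ i (φ : List G → ℝ) (M : ℝ), 0 ≤ M → Uo (j + 1) φ →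
        (∀ x ∈ D, |φ (List.ofFn x)| ≤ M) → |lam i φ| ≤ K * M) ∧
      (∀ i (ψ : List G → ℝ), Uo j ψ → lam i (dl ψ) = 0) ∧
      (∀ i i', lam i (e i') = if i = i' then 1 else 0) ∧
      (2 ≤ j → ∀ φ : List G → ℝ, Cy (j + 1) φ → (∀ i, lam i φ = 0) → ∃ ψ : List G → ℝ, Co j ψ ∧
        ∀ m, φ m = dl ψ m) := by
    intro j
    by_cases hj : 2 ≤ j
    · obtain ⟨C, D, hU⟩ := exists_udeg E hj
      obtain ⟨n, e, lam, K, -, h1, h2, h3, h4, h5, h6⟩ := exists_data hU (hI j (by omega)) hT
      exact ⟨n, e, lam, K, D, hU.comp, h1, h2, h3, h4, h5, fun _ => h6⟩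
    · exact ⟨0, fun i => i.elim0, fun i => i.elim0, 0, ∅, isCompact_empty, fun i => i.elim0,
        fun i => i.elim0, fun i => i.elim0, fun i => i.elim0, fun i => i.elim0,
        fun h => absurd h hj⟩
  choose N e lam C D h1 h2 h3 h4 h5 h6 h7 using key
  exact ⟨{ N := N
           e := e
           lam := lam
           C := C
           D := D
           hD := h1
           he := h2
           lam_lin := h3
           lam_bd := h4
           lam_dl := h5
           lam_e := h6
           prim := h7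
           hom0 := hom0 }⟩

end Pool.Agent.Helper59.FD
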