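import Mathlib

/-!
# Block FD: a compact perturbation of a surjective operator (L. Schwartz), elementary form

`B`, `Y` Banach spaces, `D : B → Y`, `W : Y → Y` continuous linear, `y - W y` in the range of `D`
for every `y`, and the image of every ball under `W` is totally bounded.  Then the range of `D` has
finite codimension; there are `e 1, .., e n` in `Y` and bounded functionals `lam i` with
`lam i (D b) = 0`, `lam i (e j) = δ i j` and `y - ∑ lam i y • e i` in the range of `D`.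
-/

namespace Pool.Agent.Helper59.FD

section iter

variable {E Y : Type*} [NormedAddCommGroup E] [NormedSpace ℝ E] [CompleteSpace E]
  [NormedAddCommGroup Y] [NormedSpace ℝ Y]

/-- approximate preimages with a uniform bound give preimages -/
theorem surj_of_approx (T : E →L[ℝ] Y) (C : ℝ)
    (h : ∀ y, ∃ x, ‖y - T x‖ ≤ 1 / 2 * ‖y‖ ∧ ‖x‖ ≤ C * ‖y‖) : Function.Surjective T := by
  intro y
  choose g hg using h
  let r : Y → Y := fun y => y - T (g y)
  have hr : ∀ y, ‖r y‖ ≤ 1 / 2 * ‖y‖ := fun y => (hg y).1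
  have hrn : ∀ n, ‖r^[n] y‖ ≤ (1 / 2) ^ n * ‖y‖ := by
    intro n
    induction n with
    | zero => simp
    | succ n ih =>
      rw [Function.iterate_succ', Function.comp_apply]
      refine (hr _).trans ?_
      rw [pow_succ]
      nlinarith
  let u : ℕ → E := fun n => g (r^[n] y)
  have hu : ∀ n, ‖u n‖ ≤ (1 / 2) ^ n * (|C| * ‖y‖) := by
    intro n
    have h1 : ‖u n‖ ≤ |C| * ‖r^[n] y‖ :=
      ((hg _).2).trans (mul_le_mul_of_nonneg_right (le_abs_self C) (norm_nonneg _))
    have h2 := mul_le_mul_of_nonneg_left (hrn n) (abs_nonneg C)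
    calc ‖u n‖ ≤ |C| * ‖r^[n] y‖ := h1
      _ ≤ |C| * ((1 / 2) ^ n * ‖y‖) := h2
      _ = (1 / 2) ^ n * (|C| * ‖y‖) := by ring
  have hs : Summable u := by
    refine Summable.of_norm_bounded ((summable_geometric_two).mul_right (|C| * ‖y‖)) fun n => ?_
    exact hu n
  refine ⟨∑' n, u n, ?_⟩
  have h1 : HasSum (fun n => T (u n)) (T (∑' n, u n)) := hs.hasSum.mapL T
  have h2 : ∀ n, ∑ i ∈ Finset.range n, T (u i) = y - r^[n] y := by
    intro n
    induction n with
    | zero => simp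
    | succ n ih =>
      rw [Finset.sum_range_succ, ih, Function.iterate_succ', Function.comp_apply]
      change y - r^[n] y + T (g (r^[n] y)) = y - (r^[n] y - T (g (r^[n] y)))
      abel
  have h3 : Filter.Tendsto (fun n => r^[n] y) Filter.atTop (nhds 0) := by
    refine squeeze_zero_norm hrn ?_
    have h4 := (tendsto_pow_atTop_nhds_zero_of_lt_one (r := (1 / 2 : ℝ)) (by norm_num)
      (by norm_num)).mul_const ‖y‖
    rwa [zero_mul] at h4
  have h5 : Filter.Tendsto (fun n => ∑ i ∈ Finset.range n, T (u i)) Filter.atTop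
      (nhds (y - 0)) := by
    simp only [h2]
    exact tendsto_const_nhds.sub h3
  rw [sub_zero] at h5
  exact tendsto_nhds_unique h1.tendsto_sum_nat h5

end iter

variable {B Y : Type*} [NormedAddCommGroup B] [NormedSpace ℝ B] [CompleteSpace B]
  [NormedAddCommGroup Y] [NormedSpace ℝ Y] [CompleteSpace Y]

/-- the range of `D` has finite codimension -/
theorem finite_quotient (D : B →L[ℝ] Y) (W : Y →L[ℝ] Y) (h1 : ∀ y, ∃ b, y - W y = D b)
    (h2 : TotallyBounded (W '' Metric.closedBall 0 1)) :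
    ∃ F : Submodule ℝ Y, FiniteDimensional ℝ F ∧ ∀ y, ∃ b, ∃ f ∈ F, y = D b + f := by
  have hsurj : Function.Surjective (D.coprod W) := by
    intro y
    obtain ⟨b, hb⟩ := h1 y
    refine ⟨(b, y), ?_⟩
    rw [ContinuousLinearMap.coprod_apply, ← hb]
    abel
  obtain ⟨C, hC, hpre⟩ := (D.coprod W).exists_preimage_norm_le hsurj
  -- finite net of `W (ball C)`
  have h3 : TotallyBounded (W '' Metric.closedBall 0 C) := by
    have h4 : W '' Metric.closedBall 0 C ⊆ (fun y => C • y) '' (W '' Metric.closedBall 0 1) := by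
      rintro _ ⟨z, hz, rfl⟩
      refine ⟨W (C⁻¹ • z), ⟨C⁻¹ • z, ?_, rfl⟩, ?_⟩
      · rw [mem_closedBall_zero_iff] at hz ⊢
        rw [norm_smul, norm_inv, Real.norm_eq_abs, abs_of_pos hC]
        rw [inv_mul_le_iff₀ hC]
        linarith
      · change C • W (C⁻¹ • z) = W z
        rw [map_smul, smul_smul, mul_inv_cancel₀ hC.ne', one_smul]
    exact (h2.image (uniformContinuous_const_smul C)).subset h4
  obtain ⟨t, ht, hcov⟩ := Metric.totallyBounded_iff.1 h3 (1 / 2) (by norm_num)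
  let F : Submodule ℝ Y := Submodule.span ℝ t
  have hF : FiniteDimensional ℝ F := FiniteDimensional.span_of_finite ℝ ht
  refine ⟨F, hF, ?_⟩
  let T : B × F →L[ℝ] Y := D.coprod F.subtypeL
  -- a bound for the net
  obtain ⟨K, hK⟩ : ∃ K : ℝ, ∀ f ∈ t, ‖f‖ ≤ K := by
    obtain ⟨K, hK⟩ := (ht.image (fun f => ‖f‖)).bddAbove
    exact ⟨K, fun f hf => hK ⟨f, hf, rfl⟩⟩
  have hsT : Function.Surjective T := by
    refine surj_of_approx T (max C |K|) fun y => ?_
    by_cases hy : y = 0
    · refine ⟨0, ?_, ?_⟩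
      · simp [hy]
      · simp [hy]
    have hy0 : 0 < ‖y‖ := norm_pos_iff.2 hy
    obtain ⟨⟨b, z⟩, hbz, hn⟩ := hpre ((‖y‖)⁻¹ • y)
    have hyn : ‖(‖y‖)⁻¹ • y‖ = 1 := by
      rw [norm_smul, norm_inv, norm_norm, inv_mul_cancel₀ hy0.ne']
    rw [hyn, mul_one] at hn
    have hb : ‖b‖ ≤ C := (norm_fst_le (b, z)).trans hn
    have hz : ‖z‖ ≤ C := (norm_snd_le (b, z)).trans hn
    have hWz : W z ∈ W '' Metric.closedBall 0 C := ⟨z, mem_closedBall_zero_iff.2 hz, rfl⟩
    obtain ⟨f, hf, hfz⟩ := Set.mem_iUnion₂.1 (hcov hWz)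
    rw [mem_ball_iff_norm] at hfz
    rw [ContinuousLinearMap.coprod_apply] at hbz
    refine ⟨‖y‖ • (b, ⟨f, Submodule.subset_span hf⟩), ?_, ?_⟩
    · have e1 : T (‖y‖ • (b, (⟨f, Submodule.subset_span hf⟩ : F))) = ‖y‖ • (D b + f) := by
        rw [map_smul]
        rfl
      have e2 : y = ‖y‖ • (D b + W z) := by
        have e3 : D b + W z = (‖y‖)⁻¹ • y := hbz
        rw [e3, smul_smul, mul_inv_cancel₀ hy0.ne', one_smul]
      have e4 : y - T (‖y‖ • (b, (⟨f, Submodule.subset_span hf⟩ : F))) = ‖y‖ • (W z - f) := by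
        rw [e1]
        nth_rewrite 1 [e2]
        rw [← smul_sub]
        congr 1
        abel
      rw [e4, norm_smul, norm_norm]
      nlinarith
    · rw [norm_smul, norm_norm, mul_comm]
      refine mul_le_mul_of_nonneg_right ?_ hy0.le
      rw [Prod.norm_def]
      refine max_le (hb.trans (le_max_left _ _)) ?_
      exact ((hK f hf).trans (le_abs_self K)).trans (le_max_right _ _)
  intro y
  obtain ⟨⟨b, f⟩, hbf⟩ := hsT y
  exact ⟨b, f, f.2, hbf.symm⟩

/-- the basis of the quotient and the bounded coordinate functionals -/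
theorem exists_basis (D : B →L[ℝ] Y) (W : Y →L[ℝ] Y) (h1 : ∀ y, ∃ b, y - W y = D b)
    (h2 : TotallyBounded (W '' Metric.closedBall 0 1)) :
    ∃ (n : ℕ) (e : Fin n → Y) (lam : Fin n → Y →ₗ[ℝ] ℝ) (C : ℝ), 0 ≤ C ∧
      (∀ i y, |lam i y| ≤ C * ‖y‖) ∧ (∀ i b, lam i (D b) = 0) ∧
      (∀ i j, lam i (e j) = if i = j then 1 else 0) ∧
      ∀ y, ∃ b, y = D b + ∑ i, lam i y • e i := by
  obtain ⟨F, hF, hdec⟩ := finite_quotient D W h1 h2
  let R : Submodule ℝ Y := LinearMap.range (D : B →ₗ[ℝ] Y)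
  have hQ : FiniteDimensional ℝ (Y ⧸ R) := by
    refine Module.Finite.of_surjective (R.mkQ.comp F.subtype) ?_
    intro q
    obtain ⟨y, rfl⟩ := R.mkQ_surjective q
    obtain ⟨b, f, hf, hbf⟩ := hdec y
    refine ⟨⟨f, hf⟩, ?_⟩
    rw [LinearMap.comp_apply, Submodule.subtype_apply, hbf, map_add]
    have h3 : R.mkQ (D b) = 0 := by
      rw [Submodule.mkQ_apply, Submodule.Quotient.mk_eq_zero]
      exact ⟨b, rfl⟩
    rw [h3, zero_add]
  let n := Module.finrank ℝ (Y ⧸ R)
  let β : Module.Basis (Fin n) ℝ (Y ⧸ R) := Module.finBasis ℝ (Y ⧸ R)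
  choose e he using fun i => R.mkQ_surjective (β i)
  let lam : Fin n → Y →ₗ[ℝ] ℝ := fun i => (β.coord i).comp R.mkQ
  have hlamD : ∀ i b, lam i (D b) = 0 := by
    intro i b
    change β.coord i (R.mkQ (D b)) = 0
    have h3 : R.mkQ (D b) = 0 := by
      rw [Submodule.mkQ_apply, Submodule.Quotient.mk_eq_zero]
      exact ⟨b, rfl⟩
    rw [h3, map_zero]
  have hlame : ∀ i j, lam i (e j) = if i = j then 1 else 0 := by
    intro i j
    change β.coord i (R.mkQ (e j)) = _
    rw [he, Module.Basis.coord_apply, Module.Basis.repr_self, Finsupp.single_apply]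
    simp only [eq_comm]
  have hdec2 : ∀ y, ∃ b, y = D b + ∑ i, lam i y • e i := by
    intro y
    have h3 : R.mkQ (y - ∑ i, lam i y • e i) = 0 := by
      rw [map_sub, map_sum, sub_eq_zero]
      have h4 := β.sum_repr (R.mkQ y)
      rw [← h4]
      refine Finset.sum_congr rfl fun i _ => ?_
      rw [map_smul, he]
      rfl
    rw [Submodule.mkQ_apply, Submodule.Quotient.mk_eq_zero] at h3
    obtain ⟨b, hb⟩ := h3
    refine ⟨b, ?_⟩
    have hb' : D b = y - ∑ i, lam i y • e i := hb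
    rw [hb']
    abel
  -- bound
  let T : B × (Fin n → ℝ) →L[ℝ] Y :=
    D.coprod (∑ i, (ContinuousLinearMap.proj (R := ℝ) (φ := fun _ : Fin n => ℝ) i).smulRight (e i))
  have hTa : ∀ (b : B) (a : Fin n → ℝ), T (b, a) = D b + ∑ i, a i • e i := by
    intro b a
    change D b + (∑ i, (ContinuousLinearMap.proj (R := ℝ) (φ := fun _ : Fin n => ℝ) i).smulRight
      (e i)) a = _
    rw [ContinuousLinearMap.sum_apply]
    rfl
  have hTs : Function.Surjective T := by
    intro y
    obtain ⟨b, hb⟩ := hdec2 y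
    exact ⟨(b, fun i => lam i y), by rw [hTa]; exact hb.symm⟩
  obtain ⟨C, hC, hpre⟩ := T.exists_preimage_norm_le hTs
  refine ⟨n, e, lam, C, hC.le, fun i y => ?_, hlamD, hlame, hdec2⟩
  obtain ⟨⟨b, a⟩, hba, hn⟩ := hpre y
  rw [hTa] at hba
  have h5 : lam i y = a i := by
    rw [← hba, map_add, hlamD, zero_add, map_sum]
    rw [Finset.sum_eq_single i]
    · rw [map_smul, hlame, if_pos rfl, smul_eq_mul, mul_one]
    · intro j _ hj
      rw [map_smul, hlame, if_neg (Ne.symm hj), smul_zero]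
    · intro h
      exact absurd (Finset.mem_univ _) h
  rw [h5, ← Real.norm_eq_abs]
  exact ((norm_le_pi_norm a i).trans (norm_snd_le (b, a))).trans hn

end Pool.Agent.Helper59.FD
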