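import Pool.Agent.Helper59.FD.Op

/-!
# Block FD: extension of the coordinate functionals to all continuous cochains
-/

open scoped Topology

namespace Pool.Agent.Helper59.FD
open Pool.Agent.Helper11.BC (dl)
open Pool.Agent.Helper87.BCR
open Pool.Agent.Helper87.BK

variable {G : Type} [Group G] [TopologicalSpace G] [IsTopologicalGroup G]
  [FirstCountableTopology G]

/-- Hahn-Banach: a linear functional on the cocycles, bounded by the supremum over a compact set,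
extends to all continuous invariant cochains -/
theorem exists_ext {j : ℕ} {D : Set (Fin (j + 1) → G)} (hD : IsCompact D) (K : ℝ) (hK : 0 ≤ K)
    (f : (List G → ℝ) → ℝ)
    (hlin : ∀ (φ ψ : List G → ℝ) (a b : ℝ), Zo (j + 1) φ → Zo (j + 1) ψ →
      f (fun m => a * φ m + b * ψ m) = a * f φ + b * f ψ)
    (hbd : ∀ (φ : List G → ℝ) (M : ℝ), 0 ≤ M → Zo (j + 1) φ →
      (∀ x ∈ D, |φ (List.ofFn x)| ≤ M) → |f φ| ≤ K * M) :
    ∃ g : (List G → ℝ) → ℝ, (∀ φ, Zo (j + 1) φ → g φ = f φ) ∧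
      (∀ (φ ψ : List G → ℝ) (a b : ℝ), Uo (j + 1) φ → Uo (j + 1) ψ →
        g (fun m => a * φ m + b * ψ m) = a * g φ + b * g ψ) ∧
      ∀ (φ : List G → ℝ) (M : ℝ), 0 ≤ M → Uo (j + 1) φ →
        (∀ x ∈ D, |φ (List.ofFn x)| ≤ M) → |g φ| ≤ K * M := by
  classical
  haveI : CompactSpace D := isCompact_iff_compactSpace.1 hD
  let E : Submodule ℝ (List G → ℝ) :=
    { carrier := {φ | Uo (j + 1) φ}
      add_mem' := fun {a b} ha hb => by
        have h := Uo_lin 1 1 ha hb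
        simp only [one_mul] at h
        exact h
      zero_mem' := Uo_zero (j + 1)
      smul_mem' := fun c a ha => by
        have h := Uo_lin c 0 ha ha
        simp only [zero_mul, add_zero] at h
        exact h }
  let Z : Submodule ℝ E :=
    { carrier := {φ | ∀ l, dl (φ : List G → ℝ) l = 0}
      add_mem' := fun {a b} ha hb l => by
        have h := dl_add (a : List G → ℝ) (b : List G → ℝ) l
        rw [ha l, hb l, add_zero] at h
        exact h
      zero_mem' := fun l => dl_zero_fun l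
      smul_mem' := fun c a ha l => by
        have h := dl_smul c (a : List G → ℝ) l
        rw [ha l, mul_zero] at h
        exact h }
  have hZ : ∀ φ : Z, Zo (j + 1) ((φ : E) : List G → ℝ) := fun φ => ⟨(φ : E).2, φ.2⟩
  let f₀ : Z →ₗ[ℝ] ℝ :=
    { toFun := fun φ => f ((φ : E) : List G → ℝ)
      map_add' := fun a b => by
        have h := hlin _ _ 1 1 (hZ a) (hZ b)
        simp only [one_mul] at h
        exact h
      map_smul' := fun c a => by
        have h := hlin _ _ c 0 (hZ a) (hZ a)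
        simp only [zero_mul, add_zero] at h
        exact h }
  let R : E → C(D, ℝ) := fun φ =>
    ⟨fun x => (φ : List G → ℝ) (List.ofFn (x : Fin (j + 1) → G)),
      (φ.2.cont (j + 1)).comp continuous_subtype_val⟩
  have hRadd : ∀ a b : E, R (a + b) = R a + R b := fun a b => rfl
  have hRsmul : ∀ (c : ℝ) (a : E), R (c • a) = c • R a := fun c a => rfl
  let N : E → ℝ := fun φ => K * ‖R φ‖
  have hf₀ : ∀ φ : Z, f₀ φ ≤ N φ := by
    intro φ
    refine (le_abs_self _).trans ?_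
    refine hbd _ ‖R φ‖ (norm_nonneg _) (hZ φ) fun x hx => ?_
    have := (R (φ : E)).norm_coe_le_norm ⟨x, hx⟩
    exact this
  obtain ⟨g, hg1, hg2⟩ := exists_extension_of_le_sublinear (⟨Z, f₀⟩ : E →ₗ.[ℝ] ℝ) N
    (fun c hc x => by
      change K * ‖R (c • x)‖ = c * (K * ‖R x‖)
      rw [hRsmul, norm_smul, Real.norm_eq_abs, abs_of_pos hc]
      ring)
    (fun x y => by
      change K * ‖R (x + y)‖ ≤ K * ‖R x‖ + K * ‖R y‖
      rw [hRadd, ← mul_add]
      exact mul_le_mul_of_nonneg_left (norm_add_le _ _) hK)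
    hf₀
  have hgabs : ∀ φ : E, |g φ| ≤ K * ‖R φ‖ := by
    intro φ
    rw [abs_le]
    constructor
    · have h1 := hg2 ((-1 : ℝ) • φ)
      rw [map_smul] at h1
      change (-1 : ℝ) * g φ ≤ K * ‖R ((-1 : ℝ) • φ)‖ at h1
      rw [hRsmul, norm_smul, norm_neg, norm_one, one_mul] at h1
      linarith
    · exact hg2 φ
  have hgd : ∀ (φ : List G → ℝ) (h : Uo (j + 1) φ),
      (fun φ : List G → ℝ => if h : Uo (j + 1) φ then g ⟨φ, h⟩ else 0) φ = g ⟨φ, h⟩ :=
    fun φ h => dif_pos h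
  refine ⟨fun φ => if h : Uo (j + 1) φ then g ⟨φ, h⟩ else 0, ?_, ?_, ?_⟩
  · intro φ hφ
    rw [hgd φ hφ.1]
    exact hg1 ⟨⟨φ, hφ.1⟩, hφ.2⟩
  · intro φ ψ a b hφ hψ
    rw [hgd _ (Uo_lin a b hφ hψ), hgd _ hφ, hgd _ hψ, ← smul_eq_mul, ← smul_eq_mul, ← map_smul,
      ← map_smul, ← map_add]
    rfl
  · intro φ M hM hφ h
    rw [hgd _ hφ]
    refine (hgabs _).trans (mul_le_mul_of_nonneg_left ?_ hK)
    rw [ContinuousMap.norm_le _ hM]
    intro x
    exact h x x.2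

/-- the data in one degree -/
theorem exists_data {j : ℕ} {U : (List G → ℝ) → List G → ℝ} {C : ℝ}
    {D : Set (Fin (j + 1) → G)} (hU : UDeg G j U C D) (hI : CInj G j) {T : (G → ℝ) → G → ℝ}
    (hT : Smt T) :
    ∃ (n : ℕ) (e : Fin n → List G → ℝ) (lam : Fin n → (List G → ℝ) → ℝ) (K : ℝ), 0 ≤ K ∧
      (∀ i, Cy (j + 1) (e i)) ∧
      (∀ i (φ ψ : List G → ℝ) (a b : ℝ), Uo (j + 1) φ → Uo (j + 1) ψ →
        lam i (fun m => a * φ m + b * ψ m) = a * lam i φ + b * lam i ψ) ∧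
      (∀ i (φ : List G → ℝ) (M : ℝ), 0 ≤ M → Uo (j + 1) φ →
        (∀ x ∈ D, |φ (List.ofFn x)| ≤ M) → |lam i φ| ≤ K * M) ∧
      (∀ i (ψ : List G → ℝ), Uo j ψ → lam i (dl ψ) = 0) ∧
      (∀ i i', lam i (e i') = if i = i' then 1 else 0) ∧
      ∀ φ : List G → ℝ, Cy (j + 1) φ → (∀ i, lam i φ = 0) → ∃ ψ : List G → ℝ, Co j ψ ∧
        ∀ m, φ m = dl ψ m := by
  obtain ⟨n, e, lam, K, hK, he, hlin, hbd, hdl, hle, hprim⟩ := exists_basis_Cy hU hI hT
  have hUC : ∀ φ : List G → ℝ, Cy (j + 1) φ → Cy (j + 1) (U φ) := by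
    intro φ hφ
    obtain ⟨M, hM⟩ := hφ.1.bdd
    exact Zo.cy (hU.uo φ (Cy.zo hφ)) (hU.bd φ |M| (abs_nonneg _) (Cy.zo hφ) fun x _ =>
      (hM _).trans (le_abs_self M))
  have hUC' : ∀ φ : List G → ℝ, Zo (j + 1) φ → Cy (j + 1) (U φ) := by
    intro φ hφ
    obtain ⟨M, hM⟩ := hU.comp.exists_bound_of_continuousOn (hφ.1.cont (j + 1)).continuousOn
    refine Zo.cy (hU.uo φ hφ) (hU.bd φ |M| (abs_nonneg _) hφ fun x hx => ?_)
    exact (hM x hx).trans (le_abs_self M)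
  -- a bounded coboundary is killed
  have hkill : ∀ i (u : List G → ℝ), Uo j u → Cy (j + 1) (dl u) → lam i (dl u) = 0 := by
    intro i u hu hcy
    obtain ⟨ν, hν, h1⟩ := hI (dl u) hcy ⟨u, hu, fun _ => rfl⟩
    rw [funext h1]
    exact hdl i ν hν
  have hUφ : ∀ i (φ : List G → ℝ), Cy (j + 1) φ → lam i (U φ) = lam i φ := by
    intro i φ hφ
    obtain ⟨u, hu, h1⟩ := hU.hom φ (Cy.zo hφ)
    have h2 : dl u = fun m => 1 * U φ m + (-1) * φ m := by
      funext m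
      rw [h1 m]
      ring
    have h3 : Cy (j + 1) (dl u) := by
      rw [h2]
      exact Cy_lin 1 (-1) (hUC φ hφ) hφ
    have h4 := hkill i u hu h3
    rw [h2, hlin i _ _ 1 (-1) (hUC φ hφ) hφ] at h4
    linarith
  have hext : ∀ i : Fin n, ∃ g : (List G → ℝ) → ℝ, (∀ φ, Zo (j + 1) φ → g φ = lam i (U φ)) ∧
      (∀ (φ ψ : List G → ℝ) (a b : ℝ), Uo (j + 1) φ → Uo (j + 1) ψ →
        g (fun m => a * φ m + b * ψ m) = a * g φ + b * g ψ) ∧
      ∀ (φ : List G → ℝ) (M : ℝ), 0 ≤ M → Uo (j + 1) φ →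
        (∀ x ∈ D, |φ (List.ofFn x)| ≤ M) → |g φ| ≤ (K * C) * M := by
    intro i
    refine exists_ext hU.comp (K * C) (mul_nonneg hK hU.nonneg) (fun φ => lam i (U φ)) ?_ ?_
    · intro φ ψ a b hφ hψ
      change lam i (U _) = a * lam i (U φ) + b * lam i (U ψ)
      rw [funext (hU.lin φ ψ a b hφ hψ)]
      exact hlin i _ _ a b (hUC' φ hφ) (hUC' ψ hψ)
    · intro φ M hM hφ h
      have h1 := hbd i (U φ) (C * M) (mul_nonneg hU.nonneg hM) (hUC' φ hφ)
        (hU.bd φ M hM hφ h)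
      rw [← mul_assoc] at h1
      exact h1
  choose g hg1 hg2 hg3 using hext
  refine ⟨n, e, g, K * C, mul_nonneg hK hU.nonneg, he, hg2, hg3, ?_, ?_, ?_⟩
  · intro i ψ hψ
    rw [hg1 i _ (Zo_dl hψ)]
    obtain ⟨u, hu, h1⟩ := hU.hom _ (Zo_dl hψ)
    have h2 : dl (fun m => 1 * ψ m + 1 * u m) = U (dl ψ) := by
      funext m
      rw [dl_lin, h1 m]
      ring
    rw [← h2]
    refine hkill i _ (Uo_lin 1 1 hψ hu) ?_
    rw [h2]
    exact hUC' _ (Zo_dl hψ)
  · intro i i'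
    rw [hg1 i _ (Cy.zo (he i')), hUφ i _ (he i')]
    exact hle i i'
  · intro φ hφ h0
    refine hprim φ hφ fun i => ?_
    rw [← hUφ i φ hφ, ← hg1 i φ (Cy.zo hφ)]
    exact h0 i

end Pool.Agent.Helper59.FD
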