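import Pool.Agent.Helper87.BK.Cmp

/-!
# Block FD: cochains on lists, closure properties and smoothing
-/

open scoped Topology

namespace Pool.Agent.Helper59.FD
open Pool.Agent.Helper11.BC (dl)
open Pool.Agent.Helper87.BCR
open Pool.Agent.Helper87.BK

section

variable {X : Type}

theorem dl_lin (a b : ℝ) (φ ψ : List X → ℝ) (l : List X) :
    dl (fun m => a * φ m + b * ψ m) l = a * dl φ l + b * dl ψ l := by
  rw [dl_add (fun m => a * φ m) (fun m => b * ψ m), dl_smul, dl_smul]

theorem dl_zero_fun (l : List X) : dl (fun _ : List X => (0 : ℝ)) l = 0 := by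
  have h := dl_smul 0 (fun _ : List X => (0 : ℝ)) l
  simpa using h

theorem dl_supp {k : ℕ} {φ : List X → ℝ} (h : ∀ l : List X, l.length ≠ k → φ l = 0)
    (l : List X) (hl : l.length ≠ k + 1) : dl φ l = 0 := by
  rw [dl_congr φ (fun _ => 0) l fun t ht => h t (by omega)]
  exact dl_zero_fun l

end

variable {G : Type} [Group G] [TopologicalSpace G]

theorem Uo_lin {k : ℕ} {φ ψ : List G → ℝ} (a b : ℝ) (h : Uo k φ) (h' : Uo k ψ) :
    Uo k (fun m => a * φ m + b * ψ m) where
  cont := fun r => (continuous_const.mul (h.cont r)).add (continuous_const.mul (h'.cont r))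
  inv := fun g l => by
    show a * φ (l.map (g * ·)) + b * ψ (l.map (g * ·)) = _
    rw [h.inv, h'.inv]
  supp := fun l hl => by
    show a * φ l + b * ψ l = 0
    rw [h.supp l hl, h'.supp l hl]
    ring

theorem Co_lin {k : ℕ} {φ ψ : List G → ℝ} (a b : ℝ) (h : Co k φ) (h' : Co k ψ) :
    Co k (fun m => a * φ m + b * ψ m) where
  cont := fun r => (continuous_const.mul (h.cont r)).add (continuous_const.mul (h'.cont r))
  bdd := by
    obtain ⟨M, hM⟩ := h.bdd
    obtain ⟨N, hN⟩ := h'.bdd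
    refine ⟨|a| * M + |b| * N, fun l => ?_⟩
    calc |a * φ l + b * ψ l| ≤ |a * φ l| + |b * ψ l| := abs_add_le _ _
      _ = |a| * |φ l| + |b| * |ψ l| := by rw [abs_mul, abs_mul]
      _ ≤ |a| * M + |b| * N := add_le_add
          (mul_le_mul_of_nonneg_left (hM l) (abs_nonneg _))
          (mul_le_mul_of_nonneg_left (hN l) (abs_nonneg _))
  inv := fun g l => by
    show a * φ (l.map (g * ·)) + b * ψ (l.map (g * ·)) = _
    rw [h.inv, h'.inv]
  supp := fun l hl => by
    show a * φ l + b * ψ l = 0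
    rw [h.supp l hl, h'.supp l hl]
    ring

theorem Cy_lin {k : ℕ} {φ ψ : List G → ℝ} (a b : ℝ) (h : Cy k φ) (h' : Cy k ψ) :
    Cy k (fun m => a * φ m + b * ψ m) :=
  ⟨Co_lin a b h.1 h'.1, fun l => by rw [dl_lin, h.2, h'.2]; ring⟩

theorem Co_zero (k : ℕ) : Co k (fun _ : List G => (0 : ℝ)) :=
  ⟨fun _ => continuous_const, ⟨0, fun _ => by simp⟩, fun _ _ => rfl, fun _ _ => rfl⟩

theorem Uo_zero (k : ℕ) : Uo k (fun _ : List G => (0 : ℝ)) :=
  ⟨fun _ => continuous_const, fun _ _ => rfl, fun _ _ => rfl⟩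

theorem Cy_zero (k : ℕ) : Cy k (fun _ : List G => (0 : ℝ)) := ⟨Co_zero k, dl_zero_fun⟩

theorem Co.uo {k : ℕ} {φ : List G → ℝ} (h : Co k φ) : Uo k φ := ⟨h.cont, h.inv, h.supp⟩

theorem Uo_dl {k : ℕ} {ψ : List G → ℝ} (h : Uo k ψ) : Uo (k + 1) (dl ψ) where
  cont := h.cont.dl
  inv := fun g l => by
    unfold Helper11.BC.dl
    rw [List.length_map]
    refine Finset.sum_congr rfl fun i _ => ?_
    rw [List.eraseIdx_map, h.inv]
  supp := fun l hl => dl_supp h.supp l hl

theorem Cy_dl {k : ℕ} {ψ : List G → ℝ} (h : Co k ψ) : Cy (k + 1) (dl ψ) := by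
  have h1 := Uo_dl (Co.uo h)
  refine ⟨⟨h1.cont, ?_, h1.inv, h1.supp⟩, fun l => dl_dl ψ l⟩
  obtain ⟨M, hM⟩ := h.bdd
  refine ⟨((k + 1 : ℕ) : ℝ) * |M|, fun l => ?_⟩
  by_cases hl : l.length = k + 1
  · exact dl_abs_le k ψ |M| (fun m _ => (hM m).trans (le_abs_self M)) l hl
  · rw [h1.supp l hl, abs_zero]
    positivity

/-! ### smoothing -/

variable {T : (G → ℝ) → G → ℝ}

theorem tens_zero_fun (hc : ∀ (c : ℝ) x, T (fun _ => c) x = c) (l : List G) :
    tens T (fun _ => (0 : ℝ)) l = 0 := by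
  induction l with
  | nil => rfl
  | cons x l ih =>
    simp only [tens]
    simp only [ih]
    exact hc 0 x

theorem tens_lin [FirstCountableTopology G] (hT : Mk G T) (a b : ℝ) (l : List G) :
    ∀ (φ ψ : List G → ℝ), LC φ → LB φ → LC ψ → LB ψ →
      tens T (fun m => a * φ m + b * ψ m) l = a * tens T φ l + b * tens T ψ l := by
  induction l with
  | nil => intro φ ψ _ _ _ _; rfl
  | cons x l ih =>
    intro φ ψ h1 h2 h3 h4
    simp only [tens]
    have e : (fun y => tens T (fun m => a * φ (y :: m) + b * ψ (y :: m)) l) =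
        fun y => a * tens T (fun m => φ (y :: m)) l + b * tens T (fun m => ψ (y :: m)) l := by
      funext y
      exact ih _ _ (h1.cons y) (h2.cons y) (h3.cons y) (h4.cons y)
    have m1 := (Mk.lin hT).mem φ ⟨h1, h2⟩ l
    have m2 := (Mk.lin hT).mem ψ ⟨h3, h4⟩ l
    rw [e, (Mk.lin hT).add _ _ ((Mk.lin hT).Qsmul a _ m1) ((Mk.lin hT).Qsmul b _ m2),
      (Mk.lin hT).smul a _ m1, (Mk.lin hT).smul b _ m2]

/-- equicontinuity of the smoothed functions -/
theorem tens_equi [FirstCountableTopology G] (hT : Smt T) (k : ℕ) :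
    ∀ (v₀ : Fin k → G) (ε : ℝ), 0 < ε → ∀ᶠ v in 𝓝 v₀, ∀ φ : List G → ℝ, LC φ →
      (∀ m, |φ m| ≤ 1) → |tens T φ (List.ofFn v) - tens T φ (List.ofFn v₀)| ≤ ε := by
  induction k with
  | zero =>
    intro v₀ ε hε
    refine Filter.Eventually.of_forall fun v φ _ _ => ?_
    rw [List.ofFn_zero, List.ofFn_zero, sub_self, abs_zero]
    exact hε.le
  | succ k ih =>
    intro v₀ ε hε
    have h1 := ih (Fin.tail v₀) (ε / 2) (half_pos hε)
    have h2 := hT.equi (v₀ 0) (ε / 2) (half_pos hε)
    have c1 : Filter.Tendsto (fun v : Fin (k + 1) → G => Fin.tail v) (𝓝 v₀)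
        (𝓝 (Fin.tail v₀)) := by
      have : Continuous fun v : Fin (k + 1) → G => Fin.tail v :=
        continuous_pi fun i => continuous_apply i.succ
      exact this.tendsto v₀
    have c2 : Filter.Tendsto (fun v : Fin (k + 1) → G => v 0) (𝓝 v₀) (𝓝 (v₀ 0)) :=
      (continuous_apply 0).tendsto v₀
    filter_upwards [c1.eventually h1, c2.eventually h2] with v hv1 hv2 φ hφ hb
    have hLB : LB φ := LB.of_bdd hb
    have m1 := (Mk.lin hT.op).mem φ ⟨hφ, hLB⟩ (List.ofFn (Fin.tail v))
    have m2 := (Mk.lin hT.op).mem φ ⟨hφ, hLB⟩ (List.ofFn (Fin.tail v₀))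
    rw [List.ofFn_succ, List.ofFn_succ]
    change |T (fun y => tens T (fun m => φ (y :: m)) (List.ofFn (Fin.tail v))) (v 0) -
      T (fun y => tens T (fun m => φ (y :: m)) (List.ofFn (Fin.tail v₀))) (v₀ 0)| ≤ ε
    have e1 : |T (fun y => tens T (fun m => φ (y :: m)) (List.ofFn (Fin.tail v))) (v 0) -
        T (fun y => tens T (fun m => φ (y :: m)) (List.ofFn (Fin.tail v₀))) (v 0)| ≤ ε / 2 := by
      rw [← (Mk.lin hT.op).T_sub m1 m2]
      refine hT.op.bdd _ _ (m1.1.sub m2.1) (fun y => ?_) _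
      exact hv1 _ (hφ.cons y) fun m => hb _
    have e2 := hv2 (fun y => tens T (fun m => φ (y :: m)) (List.ofFn (Fin.tail v₀))) m2.1
      (fun y => tens_abs_le hT.op (hφ.cons y) fun m _ => hb _)
    have e3 := abs_add_le
      (T (fun y => tens T (fun m => φ (y :: m)) (List.ofFn (Fin.tail v))) (v 0) -
        T (fun y => tens T (fun m => φ (y :: m)) (List.ofFn (Fin.tail v₀))) (v 0))
      (T (fun y => tens T (fun m => φ (y :: m)) (List.ofFn (Fin.tail v₀))) (v 0) -
        T (fun y => tens T (fun m => φ (y :: m)) (List.ofFn (Fin.tail v₀))) (v₀ 0))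
    rw [sub_add_sub_cancel] at e3
    linarith

private theorem cut {A : List G → ℝ} (n : ℕ) (hc : LC A)
    (hb : ∃ M : ℝ, ∀ l, l.length = n → |A l| ≤ M) (hi : ∀ g l, A (l.map (g * ·)) = A l) :
    Co n (fun l => if l.length = n then A l else 0) where
  cont := by
    intro k
    by_cases h : k = n
    · refine (hc k).congr fun v => ?_
      show _ = if (List.ofFn v).length = n then A (List.ofFn v) else 0
      rw [if_pos (by rw [List.length_ofFn, h])]
    · refine (continuous_const (y := (0 : ℝ))).congr fun v => ?_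
      show _ = if (List.ofFn v).length = n then A (List.ofFn v) else 0
      rw [if_neg (by rw [List.length_ofFn]; exact h)]
  bdd := by
    obtain ⟨M, hM⟩ := hb
    refine ⟨max M 0, fun l => ?_⟩
    show |if l.length = n then A l else 0| ≤ max M 0
    split_ifs with h
    · exact (hM l h).trans (le_max_left _ _)
    · rw [abs_zero]
      exact le_max_right _ _
  inv := by
    intro g l
    show (if (l.map (g * ·)).length = n then A (l.map (g * ·)) else 0) = _
    rw [hi, List.length_map]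
  supp := fun l h => if_neg h

private theorem dl_cut (A : List G → ℝ) (n : ℕ) (l : List G) :
    dl (fun l => if l.length = n then A l else 0) l = if l.length = n + 1 then dl A l else 0 := by
  split_ifs with h
  · refine dl_congr _ _ l fun t ht => ?_
    rw [if_pos (by omega)]
  · refine Eq.trans (dl_congr _ _ l fun t ht => ?_) (dl_zero_fun l)
    rw [if_neg (by omega)]

/-- smoothing of a bounded cocycle -/
theorem smooth_Cy [IsTopologicalGroup G] [FirstCountableTopology G] (hT : Smt T) {n : ℕ}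
    {f : List G → ℝ} (hf : Cy (n + 1) f) :
    Cy (n + 1) (tens T f) ∧ ∃ r : List G → ℝ, Co n r ∧ ∀ l, f l - tens T f l = dl r l := by
  obtain ⟨hco, hdl⟩ := hf
  obtain ⟨M, hM⟩ := hco.bdd
  have hb : LB f := LB.of_bdd hM
  have hc := hco.cont
  have hMk : Mk G T := hT.op
  have ha : ∀ g : G, ∀ (φ : G → ℝ) (M : ℝ), Continuous φ → (∀ x, |φ x| ≤ M) →
      ∀ x, T (fun y => φ (g * y)) x = T φ (g * x) :=
    fun g φ M hφ hφb x => hT.left φ M g x hφ hφb
  have hz := tens_zero_fun hMk.const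
  have hinvf : ∀ g : G, (fun m : List G => f (m.map (g * ·))) = f := fun g =>
    funext fun m => hco.inv g m
  have hCo : Co (n + 1) (tens T f) := by
    refine ⟨hc.tens hMk hb, ⟨M, fun l => tens_abs_le hMk hc fun m _ => hM m⟩, ?_, ?_⟩
    · intro g l
      rw [← tens_map hMk (g * ·) (ha g) l f hc hb, hinvf]
    · intro l hl
      rw [← hz l]
      exact tens_congr_length l _ _ fun m hm => hco.supp m (by rw [hm]; exact hl)
  have hdl0 : (dl f) = fun _ => 0 := funext hdl
  refine ⟨⟨hCo, fun l => ?_⟩, fun l => if l.length = n then - pri T f l else 0, ?_, ?_⟩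
  · rw [← (Mk.lin hMk).tens_dl l f ⟨hc, hb⟩, hdl0, hz]
  · apply cut
    · intro k
      exact ((hc.pri hMk hb) k).neg
    · refine ⟨n * M, fun l hl => ?_⟩
      rw [abs_neg, ← hl]
      exact pri_abs_le hMk hc hM
    · intro g l
      rw [← pri_map hMk (g * ·) (ha g) l f hc hb, hinvf]
  · intro l
    rw [dl_cut]
    split_ifs with h
    · have e1 : dl (fun l => - pri T f l) l = - dl (pri T f) l := by
        have := dl_smul (-1) (pri T f) l
        simpa using this
      rw [e1, prism_of_dl_eq_zero hMk hc hb hdl]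
      ring
    · rw [hco.supp l h, hCo.supp l h, sub_self]

end Pool.Agent.Helper59.FD
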