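import Mathlib

/-!
# Block FD: finite nets for equicontinuous families (Arzela-Ascoli)
-/

open scoped Topology BoundedContinuousFunction

namespace Pool.Agent.Helper59.FD

theorem exists_net {X : Type*} [TopologicalSpace X] {D : Set X} (hD : IsCompact D) {ι : Type*}
    (f : ι → X → ℝ) (K : ℝ) (hc : ∀ i, Continuous (f i)) (hK : ∀ i x, |f i x| ≤ K)
    (heq : ∀ x₀ : X, ∀ ε : ℝ, 0 < ε → ∀ᶠ x in 𝓝 x₀, ∀ i, |f i x - f i x₀| ≤ ε)
    (ε : ℝ) (hε : 0 < ε) :
    ∃ t : Set ι, t.Finite ∧ ∀ i, ∃ j ∈ t, ∀ x ∈ D, |f i x - f j x| ≤ ε := by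
  haveI : CompactSpace D := isCompact_iff_compactSpace.1 hD
  let F : ι → (D →ᵇ ℝ) := fun i =>
    BoundedContinuousFunction.mkOfCompact ⟨fun x : D => f i x, (hc i).comp continuous_subtype_val⟩
  have hF : ∀ i (x : D), F i x = f i x := fun i x => rfl
  have h1 : IsCompact (closure (Set.range F)) := by
    refine BoundedContinuousFunction.arzela_ascoli (Metric.closedBall 0 K)
      (isCompact_closedBall _ _) _ ?_ ?_
    · rintro g x ⟨i, rfl⟩
      rw [mem_closedBall_zero_iff, hF]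
      exact hK i x
    · intro x₀
      rw [Metric.equicontinuousAt_iff_right]
      intro δ hδ
      have h2 := (continuous_subtype_val.tendsto x₀).eventually (heq x₀ (δ / 2) (half_pos hδ))
      filter_upwards [h2] with x hx
      rintro ⟨_, i, rfl⟩
      rw [dist_comm, Real.dist_eq]
      exact (hx i).trans_lt (half_lt_self hδ)
  have h2 : TotallyBounded (Set.range F) := h1.totallyBounded.subset subset_closure
  obtain ⟨t, ht, htf, hcov⟩ := Metric.finite_approx_of_totallyBounded h2 ε hε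
  rw [← Set.image_univ] at ht
  obtain ⟨t', _, ht'f, hcov'⟩ := Set.exists_subset_image_finite_and.1
    (⟨t, ht, htf, hcov⟩ : ∃ t ⊆ F '' Set.univ, t.Finite ∧
      Set.range F ⊆ ⋃ y ∈ t, Metric.ball y ε)
  refine ⟨t', ht'f, fun i => ?_⟩
  obtain ⟨y, hy, hiy⟩ := Set.mem_iUnion₂.1 (hcov' ⟨i, rfl⟩)
  obtain ⟨j, hj, rfl⟩ := hy
  refine ⟨j, hj, fun x hx => ?_⟩
  rw [Metric.mem_ball] at hiy
  have h3 := BoundedContinuousFunction.dist_coe_le_dist (f := F i) (g := F j) ⟨x, hx⟩
  rw [Real.dist_eq, hF, hF] at h3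
  exact h3.trans hiy.le

end Pool.Agent.Helper59.FD
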