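import Pool.Agent.Helper59.FD.Banach
import Pool.Agent.Helper59.FD.Net
import Pool.Agent.Helper59.FD.Lists

/-!
# Block FD: the bounded cohomology in one degree is finite dimensional

Input in degree `j` (lists of length `j + 1`): an operator `U` on cocycles, linear, bounded by the
supremum over a compact set, homotopic to the identity; injectivity of the comparison map in
degree `j`; a smoothing operator.
-/

open scoped Topology

namespace Pool.Agent.Helper59.FD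
open Pool.Agent.Helper11.BC (dl)
open Pool.Agent.Helper87.BCR
open Pool.Agent.Helper87.BK

/-- continuous invariant cocycles -/
def Zo {G : Type} [Group G] [TopologicalSpace G] (k : ℕ) (φ : List G → ℝ) : Prop :=
  Uo k φ ∧ ∀ l, dl φ l = 0

/-- the data of `U` in degree `j` -/
structure UDeg (G : Type) [Group G] [TopologicalSpace G] (j : ℕ)
    (U : (List G → ℝ) → List G → ℝ) (C : ℝ) (D : Set (Fin (j + 1) → G)) : Prop where
  comp : IsCompact D
  nonneg : 0 ≤ C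
  lin : ∀ (φ ψ : List G → ℝ) (a b : ℝ), Zo (j + 1) φ → Zo (j + 1) ψ →
    ∀ l, U (fun m => a * φ m + b * ψ m) l = a * U φ l + b * U ψ l
  uo : ∀ φ : List G → ℝ, Zo (j + 1) φ → Zo (j + 1) (U φ)
  bd : ∀ (φ : List G → ℝ) (M : ℝ), 0 ≤ M → Zo (j + 1) φ → (∀ x ∈ D, |φ (List.ofFn x)| ≤ M) →
    ∀ l, |U φ l| ≤ C * M
  hom : ∀ φ : List G → ℝ, Zo (j + 1) φ → ∃ u : List G → ℝ, Uo j u ∧
    ∀ l, U φ l = φ l + dl u l

section

variable {G : Type} [Group G] [TopologicalSpace G]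

theorem Cy.zo {k : ℕ} {φ : List G → ℝ} (h : Cy k φ) : Zo k φ := ⟨Co.uo h.1, h.2⟩

theorem Zo.cy {k : ℕ} {φ : List G → ℝ} (h : Zo k φ) {M : ℝ} (hM : ∀ l, |φ l| ≤ M) :
    Cy k φ := ⟨⟨h.1.cont, ⟨M, hM⟩, h.1.inv, h.1.supp⟩, h.2⟩

theorem Zo_lin {k : ℕ} {φ ψ : List G → ℝ} (a b : ℝ) (h : Zo k φ) (h' : Zo k ψ) :
    Zo k (fun m => a * φ m + b * ψ m) :=
  ⟨Uo_lin a b h.1 h'.1, fun l => by rw [dl_lin, h.2, h'.2]; ring⟩

theorem Zo_dl {k : ℕ} {ψ : List G → ℝ} (h : Uo k ψ) : Zo (k + 1) (dl ψ) :=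
  ⟨Uo_dl h, fun l => dl_dl ψ l⟩

theorem Co_lim (k : ℕ) {Φ : List G → ℝ}
    (h : ∀ ε > 0, ∃ Ψ : List G → ℝ, Co k Ψ ∧ ∀ l, |Φ l - Ψ l| ≤ ε) : Co k Φ := by
  refine ⟨fun n => ?_, ?_, fun g l => ?_, fun l hl => ?_⟩
  · refine continuous_of_uniform_approx_of_continuous fun u hu => ?_
    obtain ⟨ε, hε, hu'⟩ := Metric.mem_uniformity_dist.1 hu
    obtain ⟨Ψ, hΨ, h1⟩ := h (ε / 2) (half_pos hε)
    refine ⟨_, hΨ.cont n, fun y => hu' ?_⟩
    rw [Real.dist_eq]
    exact (h1 _).trans_lt (half_lt_self hε)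
  · obtain ⟨Ψ, hΨ, h1⟩ := h 1 one_pos
    obtain ⟨M, hM⟩ := hΨ.bdd
    refine ⟨1 + M, fun l => ?_⟩
    have h2 : Φ l = (Φ l - Ψ l) + Ψ l := by ring
    rw [h2]
    exact (abs_add_le _ _).trans (add_le_add (h1 l) (hM l))
  · by_contra hne
    have hpos : 0 < |Φ (l.map (g * ·)) - Φ l| := abs_pos.2 (sub_ne_zero.2 hne)
    obtain ⟨Ψ, hΨ, h1⟩ := h (|Φ (l.map (g * ·)) - Φ l| / 3) (by positivity)
    have h2 := h1 (l.map (g * ·))
    have h3 := h1 l
    rw [hΨ.inv] at h2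
    have h4 : Φ (l.map (g * ·)) - Φ l = (Φ (l.map (g * ·)) - Ψ l) - (Φ l - Ψ l) := by ring
    have h5 : |Φ (l.map (g * ·)) - Φ l| ≤
        |Φ (l.map (g * ·)) - Ψ l| + |Φ l - Ψ l| := by
      conv_lhs => rw [h4]
      exact abs_sub _ _
    linarith
  · by_contra hne
    have hpos : 0 < |Φ l| := abs_pos.2 hne
    obtain ⟨Ψ, hΨ, h1⟩ := h (|Φ l| / 2) (by positivity)
    have h3 := h1 l
    rw [hΨ.supp l hl, sub_zero] at h3
    linarith

theorem dl_abs_le' (Φ : List G → ℝ) (M : ℝ) (h : ∀ m, |Φ m| ≤ M) (l : List G) :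
    |dl Φ l| ≤ l.length * M := by
  unfold dl
  calc |∑ i ∈ Finset.range l.length, (-1 : ℝ) ^ i • Φ (l.eraseIdx i)|
      ≤ ∑ i ∈ Finset.range l.length, |(-1 : ℝ) ^ i • Φ (l.eraseIdx i)| :=
        Finset.abs_sum_le_sum_abs _ _
    _ ≤ ∑ i ∈ Finset.range l.length, M := by
        refine Finset.sum_le_sum fun i _ => ?_
        rw [smul_eq_mul, abs_mul, abs_pow, abs_neg, abs_one, one_pow, one_mul]
        exact h _
    _ = l.length * M := by rw [Finset.sum_const, Finset.card_range, nsmul_eq_mul]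

theorem Cy_lim (k : ℕ) {Φ : List G → ℝ}
    (h : ∀ ε > 0, ∃ Ψ : List G → ℝ, Cy k Ψ ∧ ∀ l, |Φ l - Ψ l| ≤ ε) : Cy k Φ := by
  refine ⟨Co_lim k fun ε hε => ?_, fun l => ?_⟩
  · obtain ⟨Ψ, h1, h2⟩ := h ε hε
    exact ⟨Ψ, h1.1, h2⟩
  · by_contra hne
    have hpos : 0 < |dl Φ l| := abs_pos.2 hne
    obtain ⟨Ψ, hΨ, h1⟩ := h (|dl Φ l| / (l.length + 1)) (by positivity)
    have h2 := dl_abs_le' (fun m => Φ m - Ψ m) _ h1 l
    rw [dl_sub, hΨ.2, sub_zero] at h2
    have h3 : (l.length : ℝ) * (|dl Φ l| / (l.length + 1)) < |dl Φ l| := by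
      rw [mul_div_assoc', div_lt_iff₀ (by positivity)]
      nlinarith
    linarith

end

variable {G : Type} [Group G] [TopologicalSpace G] [IsTopologicalGroup G]
  [FirstCountableTopology G]

/-- the bounded cohomology in degree `j`: a basis and the coordinate functionals -/
theorem exists_basis_Cy {j : ℕ} {U : (List G → ℝ) → List G → ℝ} {C : ℝ}
    {D : Set (Fin (j + 1) → G)} (hU : UDeg G j U C D) (hI : CInj G j) {T : (G → ℝ) → G → ℝ}
    (hT : Smt T) :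
    ∃ (n : ℕ) (e : Fin n → List G → ℝ) (lam : Fin n → (List G → ℝ) → ℝ) (K : ℝ), 0 ≤ K ∧
      (∀ i, Cy (j + 1) (e i)) ∧
      (∀ i (φ ψ : List G → ℝ) (a b : ℝ), Cy (j + 1) φ → Cy (j + 1) ψ →
        lam i (fun m => a * φ m + b * ψ m) = a * lam i φ + b * lam i ψ) ∧
      (∀ i (φ : List G → ℝ) (M : ℝ), 0 ≤ M → Cy (j + 1) φ → (∀ m, |φ m| ≤ M) →
        |lam i φ| ≤ K * M) ∧
      (∀ i (ψ : List G → ℝ), Co j ψ → lam i (dl ψ) = 0) ∧
      (∀ i i', lam i (e i') = if i = i' then 1 else 0) ∧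
      ∀ φ : List G → ℝ, Cy (j + 1) φ → (∀ i, lam i φ = 0) → ∃ ψ : List G → ℝ, Co j ψ ∧
        ∀ m, φ m = dl ψ m := by
  classical
  set L := lp (fun _ : List G => ℝ) ⊤ with hL
  have hmem : ∀ φ : List G → ℝ, (∃ M : ℝ, ∀ l, |φ l| ≤ M) →
      Memℓp (E := fun _ : List G => ℝ) φ ⊤ := by
    rintro φ ⟨M, hM⟩
    refine memℓp_infty ⟨M, ?_⟩
    rintro _ ⟨l, rfl⟩
    exact hM l
  have hap : ∀ (φ : L) (l : List G), |φ l| ≤ ‖φ‖ := fun φ l =>
    lp.norm_apply_le_norm ENNReal.top_ne_zero φ l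
  have hle : ∀ (φ : L) (M : ℝ), (∀ l, |φ l| ≤ M) → ‖φ‖ ≤ M := fun φ M h =>
    lp.norm_le_of_forall_le' M h
  let B : Submodule ℝ L :=
    { carrier := {φ | Co j φ}
      add_mem' := fun {a b} ha hb => by
        have h := Co_lin 1 1 ha hb
        simp only [one_mul] at h
        exact h
      zero_mem' := Co_zero j
      smul_mem' := fun c a ha => by
        have h := Co_lin c 0 ha ha
        simp only [zero_mul, add_zero] at h
        exact h }
  let Y : Submodule ℝ L :=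
    { carrier := {φ | Cy (j + 1) φ}
      add_mem' := fun {a b} ha hb => by
        have h := Cy_lin 1 1 ha hb
        simp only [one_mul] at h
        exact h
      zero_mem' := Cy_zero (j + 1)
      smul_mem' := fun c a ha => by
        have h := Cy_lin c 0 ha ha
        simp only [zero_mul, add_zero] at h
        exact h }
  have hBc : IsClosed (B : Set L) := by
    refine isClosed_of_closure_subset fun φ hφ => ?_
    refine Co_lim j fun ε hε => ?_
    obtain ⟨ψ, hψ, hd⟩ := Metric.mem_closure_iff.1 hφ ε hε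
    refine ⟨ψ, hψ, fun l => ?_⟩
    rw [dist_eq_norm] at hd
    exact (hap (φ - ψ) l).trans hd.le
  have hYc : IsClosed (Y : Set L) := by
    refine isClosed_of_closure_subset fun φ hφ => ?_
    refine Cy_lim (j + 1) fun ε hε => ?_
    obtain ⟨ψ, hψ, hd⟩ := Metric.mem_closure_iff.1 hφ ε hε
    refine ⟨ψ, hψ, fun l => ?_⟩
    rw [dist_eq_norm] at hd
    exact (hap (φ - ψ) l).trans hd.le
  haveI : CompleteSpace B := hBc.completeSpace_coe
  haveI : CompleteSpace Y := hYc.completeSpace_coe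
  -- the differential
  let dlin : B →ₗ[ℝ] Y :=
    { toFun := fun ψ => ⟨⟨dl (ψ : L), hmem _ (Cy_dl ψ.2).1.bdd⟩, Cy_dl ψ.2⟩
      map_add' := fun a b => by
        apply Subtype.ext
        apply Subtype.ext
        funext l
        exact dl_add _ _ l
      map_smul' := fun c a => by
        apply Subtype.ext
        apply Subtype.ext
        funext l
        exact dl_smul c _ l }
  have dbd : ∀ ψ : B, ‖dlin ψ‖ ≤ (j + 1) * ‖ψ‖ := by
    intro ψ
    refine hle ((dlin ψ : Y) : L) _ fun l => ?_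
    change |dl (ψ : L) l| ≤ _
    by_cases hl : l.length = j + 1
    · have := dl_abs_le' _ ‖(ψ : L)‖ (hap (ψ : L)) l
      rw [hl] at this
      push_cast at this
      exact this
    · rw [(Cy_dl ψ.2).1.supp l hl, abs_zero]
      positivity
  let d : B →L[ℝ] Y := dlin.mkContinuous (j + 1) dbd
  have dval : ∀ (ψ : B) (l : List G), ((d ψ : Y) : L) l = dl (ψ : L) l := fun ψ l => rfl
  -- the smoothed operator
  have hUM : ∀ (φ : List G → ℝ) (M : ℝ), 0 ≤ M → Cy (j + 1) φ →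
      (∀ x ∈ D, |φ (List.ofFn x)| ≤ M) → ∀ l, |U φ l| ≤ C * M := fun φ M hM hφ h =>
    hU.bd φ M hM (Cy.zo hφ) h
  have hUC : ∀ φ : List G → ℝ, Cy (j + 1) φ → Cy (j + 1) (U φ) := by
    intro φ hφ
    obtain ⟨M, hM⟩ := hφ.1.bdd
    exact Zo.cy (hU.uo φ (Cy.zo hφ)) (hUM φ |M| (abs_nonneg _) hφ fun x _ =>
      (hM _).trans (le_abs_self M))
  have hLB : ∀ φ : List G → ℝ, Cy (j + 1) φ → LB φ := by
    intro φ hφ
    obtain ⟨M, hM⟩ := hφ.1.bdd
    exact LB.of_bdd hM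
  have hWM : ∀ (φ : List G → ℝ) (M : ℝ), 0 ≤ M → Cy (j + 1) φ →
      (∀ x ∈ D, |φ (List.ofFn x)| ≤ M) → ∀ l, |tens T (U φ) l| ≤ C * M := fun φ M hM hφ h l =>
    tens_abs_le hT.op (hUC φ hφ).1.cont fun m _ => hUM φ M hM hφ h m
  have hWC : ∀ φ : List G → ℝ, Cy (j + 1) φ → Cy (j + 1) (tens T (U φ)) := fun φ hφ =>
    (smooth_Cy hT (hUC φ hφ)).1
  have hWlin : ∀ (φ ψ : List G → ℝ) (a b : ℝ), Cy (j + 1) φ → Cy (j + 1) ψ → ∀ l,
      tens T (U fun m => a * φ m + b * ψ m) l = a * tens T (U φ) l + b * tens T (U ψ) l := by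
    intro φ ψ a b hφ hψ l
    have e : (U fun m => a * φ m + b * ψ m) = fun l => a * U φ l + b * U ψ l :=
      funext (hU.lin φ ψ a b (Cy.zo hφ) (Cy.zo hψ))
    rw [e]
    exact tens_lin hT.op a b l _ _ (hUC φ hφ).1.cont (hLB _ (hUC φ hφ))
      (hUC ψ hψ).1.cont (hLB _ (hUC ψ hψ))
  let wlin : Y →ₗ[ℝ] Y :=
    { toFun := fun φ => ⟨⟨tens T (U (φ : L)), hmem _ (hWC _ φ.2).1.bdd⟩, hWC _ φ.2⟩
      map_add' := fun a b => by
        apply Subtype.ext
        apply Subtype.ext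
        funext l
        have h := hWlin a b 1 1 a.2 b.2 l
        simp only [one_mul] at h
        exact h
      map_smul' := fun c a => by
        apply Subtype.ext
        apply Subtype.ext
        funext l
        have h := hWlin a a c 0 a.2 a.2 l
        simp only [zero_mul, add_zero] at h
        exact h }
  have wbd : ∀ φ : Y, ‖wlin φ‖ ≤ C * ‖φ‖ := by
    intro φ
    exact hle ((wlin φ : Y) : L) _ (hWM _ ‖φ‖ (norm_nonneg _) φ.2 fun x _ => hap (φ : L) _)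
  let w : Y →L[ℝ] Y := wlin.mkContinuous C wbd
  have wval : ∀ (φ : Y) (l : List G), ((w φ : Y) : L) l = tens T (U (φ : L)) l := fun φ l => rfl
  -- `φ - w φ` is in the range of `d`
  have hd1 : ∀ φ : Y, ∃ b, φ - w φ = d b := by
    intro φ
    obtain ⟨u, hu, hUu⟩ := hU.hom _ (Cy.zo φ.2)
    have h1 : Cy (j + 1) (fun m => 1 * U (φ : L) m + (-1) * (φ : L) m) :=
      Cy_lin 1 (-1) (hUC _ φ.2) φ.2
    obtain ⟨ν, hν, hν1⟩ := hI _ h1 ⟨u, hu, fun l => by rw [hUu l]; ring⟩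
    obtain ⟨_, r, hr, hr1⟩ := smooth_Cy hT (hUC _ φ.2)
    refine ⟨⟨⟨fun m => (-1) * ν m + 1 * r m, hmem _ (Co_lin (-1) 1 hν hr).bdd⟩,
      Co_lin (-1) 1 hν hr⟩, ?_⟩
    apply Subtype.ext
    apply Subtype.ext
    funext l
    change (φ : L) l - tens T (U (φ : L)) l = dl (fun m => (-1) * ν m + 1 * r m) l
    rw [dl_lin, ← hν1 l, ← hr1 l]
    ring
  have hd2 : ∀ φ : Y, ∃ b, φ - (w.comp w) φ = d b := by
    intro φ
    obtain ⟨b, hb⟩ := hd1 φ
    obtain ⟨b', hb'⟩ := hd1 (w φ)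
    refine ⟨b + b', ?_⟩
    rw [map_add, ← hb, ← hb', ContinuousLinearMap.comp_apply]
    abel
  -- total boundedness
  have htb : TotallyBounded ((w.comp w) '' Metric.closedBall 0 1) := by
    rw [Metric.totallyBounded_iff]
    intro ε hε
    have hC1 : (0 : ℝ) < C + 1 := by
      have := hU.nonneg
      linarith
    obtain ⟨t, ht, hnet⟩ := exists_net hU.comp (ι := Metric.closedBall (0 : Y) 1)
      (fun φ x => tens T (U ((φ : Y) : L)) (List.ofFn x)) C
      (fun φ => (hWC _ (φ : Y).2).1.cont (j + 1))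
      (fun φ x => by
        have h1 := wbd (φ : Y)
        have h2 : ‖(φ : Y)‖ ≤ 1 := mem_closedBall_zero_iff.1 φ.2
        have h3 := hap ((wlin (φ : Y) : Y) : L) (List.ofFn x)
        have h4 := mul_le_mul_of_nonneg_left h2 hU.nonneg
        rw [mul_one] at h4
        exact h3.trans (h1.trans h4))
      (fun x₀ δ hδ => by
        filter_upwards [tens_equi hT (j + 1) x₀ (δ / (C + 1)) (by positivity)] with x hx φ
        have h2 : ‖(φ : Y)‖ ≤ 1 := mem_closedBall_zero_iff.1 φ.2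
        have hub : ∀ m, |U ((φ : Y) : L) m| ≤ C + 1 := by
          intro m
          have h5 := hUM _ 1 zero_le_one (φ : Y).2 (fun x _ => (hap ((φ : Y) : L) _).trans h2) m
          linarith
        have hc := (hUC _ (φ : Y).2).1.cont
        have h6 := hx (fun m => (C + 1)⁻¹ * U ((φ : Y) : L) m)
          (fun k => continuous_const.mul (hc k)) (fun m => by
            rw [abs_mul, abs_inv, abs_of_pos hC1, inv_mul_le_iff₀ hC1, mul_one]
            exact hub m)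
        have h7 : ∀ l, tens T (fun m => (C + 1)⁻¹ * U ((φ : Y) : L) m) l =
            (C + 1)⁻¹ * tens T (U ((φ : Y) : L)) l := by
          intro l
          have h8 := tens_lin hT.op (C + 1)⁻¹ 0 l _ _ hc (hLB _ (hUC _ (φ : Y).2)) hc
            (hLB _ (hUC _ (φ : Y).2))
          simp only [zero_mul, add_zero] at h8
          exact h8
        rw [h7, h7, ← mul_sub, abs_mul, abs_inv, abs_of_pos hC1, inv_mul_le_iff₀ hC1] at h6
        calc _ ≤ (C + 1) * (δ / (C + 1)) := h6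
          _ = δ := by field_simp)
      (ε / (2 * (C + 1))) (by positivity)
    refine ⟨(fun φ : Metric.closedBall (0 : Y) 1 => (w.comp w) (φ : Y)) '' t, ht.image _, ?_⟩
    rintro _ ⟨φ, hφ, rfl⟩
    obtain ⟨ψ, hψ, hclose⟩ := hnet ⟨φ, hφ⟩
    refine Set.mem_iUnion₂.2 ⟨_, ⟨ψ, hψ, rfl⟩, ?_⟩
    rw [mem_ball_iff_norm]
    change ‖w (w φ) - w (w (ψ : Y))‖ < ε
    rw [← map_sub]
    have h9 : ‖w (w φ - w (ψ : Y))‖ ≤ C * (ε / (2 * (C + 1))) := by
      refine hle ((w (w φ - w (ψ : Y)) : Y) : L) _ (hWM _ _ (by positivity)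
        (w φ - w (ψ : Y)).2 fun x hx => ?_)
      exact hclose x hx
    refine h9.trans_lt ?_
    have h10 : C * (ε / (2 * (C + 1))) ≤ ε / 2 := by
      rw [mul_div_assoc', div_le_div_iff₀ (by positivity) (by norm_num)]
      have := hU.nonneg
      nlinarith
    linarith
  obtain ⟨n, e, lam, K, hK, hlamK, hlamd, hlame, hdec⟩ := exists_basis d (w.comp w) hd2 htb
  let mk : ∀ φ : List G → ℝ, Cy (j + 1) φ → Y := fun φ h => ⟨⟨φ, hmem _ h.1.bdd⟩, h⟩
  let lam' : Fin n → (List G → ℝ) → ℝ := fun i φ =>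
    if h : Cy (j + 1) φ then lam i (mk φ h) else 0
  have hlam' : ∀ i φ (h : Cy (j + 1) φ), lam' i φ = lam i (mk φ h) := fun i φ h => dif_pos h
  refine ⟨n, fun i => ((e i : Y) : L), lam', K, hK, fun i => (e i).2, ?_, ?_, ?_, ?_, ?_⟩
  · intro i φ ψ a b hφ hψ
    rw [hlam' i _ (Cy_lin a b hφ hψ), hlam' i _ hφ, hlam' i _ hψ, ← smul_eq_mul, ← smul_eq_mul,
      ← map_smul, ← map_smul, ← map_add]
    rfl
  · intro i φ M hM hφ h
    rw [hlam' i _ hφ]
    refine (hlamK i _).trans (mul_le_mul_of_nonneg_left ?_ hK)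
    exact hle ((mk φ hφ : Y) : L) M h
  · intro i ψ hψ
    rw [hlam' i _ (Cy_dl hψ)]
    exact hlamd i ⟨⟨ψ, hmem _ hψ.bdd⟩, hψ⟩
  · intro i i'
    rw [hlam' i _ (e i').2]
    exact hlame i i'
  · intro φ hφ h0
    obtain ⟨b, hb⟩ := hdec (mk φ hφ)
    have h1 : mk φ hφ = d b := by
      rw [hb]
      have h2 : ∑ i, lam i (mk φ hφ) • e i = 0 := by
        refine Finset.sum_eq_zero fun i _ => ?_
        rw [← hlam' i φ hφ, h0 i, zero_smul]
      rw [h2, add_zero]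
    refine ⟨(b : L), b.2, fun m => ?_⟩
    have h3 := congrArg (fun y : Y => (y : L) m) h1
    exact h3

end Pool.Agent.Helper59.FD
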